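import Mathlib
import Pool.Agent.Work.MP_91103f_co.Count4
import Pool.Agent.Work.MP_91103f_co.T6
import Pool.Agent.Work.MP_91103f_co.Growth

/-!
# Plane triangulations in which degree-six vertices have at most three degree-six neighbours
-/

namespace Pool.Agent.Results.MP_91103f_co.CurvatureDense

open Pool.Agent.Work.MP_91103f_co

/-- The hypotheses are those of the frozen statement `S10133` (a plane triangulation `G` with
set of faces `F`, all degrees at least six), together with: every vertex of degree six has at most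
three neighbours of degree six. -/
theorem result :
  ∀ (V : Type) (G : SimpleGraph V) (F : Set (Finset V)),
    Infinite V → G.Connected →
    (∀ v : V, (G.neighborSet v).Finite ∧ 6 ≤ (G.neighborSet v).ncard) →
    (∀ f ∈ F, f.card = 3 ∧ ∀ x ∈ f, ∀ y ∈ f, x ≠ y → G.Adj x y) →
    (∀ x y : V, G.Adj x y → {f : Finset V | f ∈ F ∧ x ∈ f ∧ y ∈ f}.ncard = 2) →
    (∀ v x y : V, G.Adj v x → G.Adj v y →
      (SimpleGraph.fromRel (fun a b : V => v ≠ a ∧ v ≠ b ∧
          ∃ f ∈ F, v ∈ f ∧ a ∈ f ∧ b ∈ f)).Reachable x y) →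
    (∀ C : Finset (Sym2 V), (∀ e ∈ C, e ∈ G.edgeSet) →
      (∀ v : V, Even {e : Sym2 V | e ∈ C ∧ v ∈ e}.ncard) →
      ∃ S : Finset (Finset V), (∀ f ∈ S, f ∈ F) ∧
        ∀ e ∈ G.edgeSet, (e ∈ C ↔ Odd {f : Finset V | f ∈ S ∧ ∀ x ∈ e, x ∈ f}.ncard)) →
    (∀ v : V, (G.neighborSet v).ncard = 6 →
      {y : V | G.Adj v y ∧ (G.neighborSet y).ncard = 6}.ncard ≤ 3) →
    ∀ v : V,
      Filter.limsup (fun n : ℕ =>
          ((Set.ncard {q : (Σ w : ℤ × ℤ,
              (SimpleGraph.fromRel (fun p r : ℤ × ℤ =>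
                (r.1 - p.1, r.2 - p.2) ∈ ({(1, 0), (0, 1), (-1, 1)} : Set (ℤ × ℤ)))).Walk
                ((0, 0) : ℤ × ℤ) w) | q.2.IsPath ∧ q.2.length = n} : ENNReal)) ^ ((1 : ℝ) / n))
        Filter.atTop
      ≤ ENNReal.ofReal 4.39 ∧
      ENNReal.ofReal 4.4 ≤ Filter.liminf (fun n : ℕ =>
          ((Set.ncard {q : (Σ w : V, G.Walk v w) | q.2.IsPath ∧ q.2.length = n} : ENNReal))
            ^ ((1 : ℝ) / n)) Filter.atTop := by
  intro V G F h1 h2 h3 h4 h5 h6 h7 hK v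
  have hT : Tri V G F := ⟨h1, h2, h3, h4, h5, h6, h7⟩
  constructor
  · obtain ⟨C, hC⟩ := exists_upper
    apply limsup_root_le (C := (C + 1 : ℝ)) (by positivity) (by norm_num)
    filter_upwards [Filter.eventually_ge_atTop 5] with n hn
    rw [ncard_paths]
    have h := hC (0, 0) (n - 5)
    rw [show n - 5 + 5 = n by omega] at h
    have h' : (100 : ℝ) ^ (n - 5) * ((PL T6 (0, 0) n).ncard : ℝ) ≤ C * 439 ^ (n - 5) := by
      exact_mod_cast h
    have h8 : ((PL T6 (0, 0) n).ncard : ℝ) ≤ C * (4.39 : ℝ) ^ (n - 5) := by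
      have e1 : (4.39 : ℝ) ^ (n - 5) * 100 ^ (n - 5) = 439 ^ (n - 5) := by
        rw [← mul_pow]
        norm_num
      have e2 : (0 : ℝ) < 100 ^ (n - 5) := by positivity
      rw [← mul_le_mul_iff_of_pos_left e2]
      calc (100 : ℝ) ^ (n - 5) * ((PL T6 (0, 0) n).ncard : ℝ) ≤ C * 439 ^ (n - 5) := h'
        _ = 100 ^ (n - 5) * (C * (4.39 : ℝ) ^ (n - 5)) := by rw [← e1]; ring
    calc ((PL T6 (0, 0) n).ncard : ℝ) ≤ C * (4.39 : ℝ) ^ (n - 5) := h8
      _ ≤ (C + 1) * (4.39 : ℝ) ^ n := by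
        apply mul_le_mul (by linarith) _ (by positivity) (by positivity)
        exact pow_le_pow_right₀ (by norm_num) (by omega)
  · apply le_liminf_root (C := (1 / 20000 : ℝ)) (by norm_num) (by norm_num)
    filter_upwards [Filter.eventually_ge_atTop 1] with n hn
    rw [ncard_paths]
    have h := hT.lower hK v (n - 1)
    rw [show n - 1 + 1 = n by omega] at h
    have h' : (440 : ℝ) ^ (n - 1) ≤ 4095 * 100 ^ (n - 1) * ((PL G v n).ncard : ℝ) := by
      exact_mod_cast h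
    have e1 : (4.4 : ℝ) ^ (n - 1) * 100 ^ (n - 1) = 440 ^ (n - 1) := by
      rw [← mul_pow]
      norm_num
    have e2 : (0 : ℝ) < 100 ^ (n - 1) := by positivity
    have e3 : (4.4 : ℝ) ^ n = 4.4 * 4.4 ^ (n - 1) := by
      rw [← pow_succ', show n - 1 + 1 = n by omega]
    have h8 : (4.4 : ℝ) ^ (n - 1) ≤ 4095 * ((PL G v n).ncard : ℝ) := by
      rw [← mul_le_mul_iff_of_pos_left e2]
      calc (100 : ℝ) ^ (n - 1) * (4.4 : ℝ) ^ (n - 1) = 440 ^ (n - 1) := by rw [← e1]; ring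
        _ ≤ 4095 * 100 ^ (n - 1) * ((PL G v n).ncard : ℝ) := h'
        _ = 100 ^ (n - 1) * (4095 * ((PL G v n).ncard : ℝ)) := by ring
    rw [e3]
    nlinarith [h8, Nat.cast_nonneg (α := ℝ) (PL G v n).ncard]

end Pool.Agent.Results.MP_91103f_co.CurvatureDense
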