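import Mathlib
import Pool.Agent.Work.MP_91103f_fd_helper33.ASM

/-!
# Plane triangulations which fold onto the triangular lattice
-/

namespace Pool.Agent.Results.MP_91103f_co.FoldedDevelopment

open Pool.Agent.Work.MP_91103f_co

/-- The hypotheses on `V, G, F` are those of the frozen statement `S10133` (a plane triangulation
`G` with set of faces `F`, all degrees at least six), and `N` is a set of faces such that for every
vertex `x` the difference of the degree of `x` and twice the number of the faces of `N` at `x` is a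
multiple of six other than zero (for `N` empty: all degrees are divisible by six). -/
theorem result :
    ∀ (V : Type) (G : SimpleGraph V) (F : Set (Finset V)),
      Infinite V → G.Connected →
      (∀ v : V, (G.neighborSet v).Finite ∧ 6 ≤ (G.neighborSet v).ncard) →
      (∀ f ∈ F, f.card = 3 ∧ ∀ x ∈ f, ∀ y ∈ f, x ≠ y → G.Adj x y) →
      (∀ x y : V, G.Adj x y → {f : Finset V | f ∈ F ∧ x ∈ f ∧ y ∈ f}.ncard = 2) →
      (∀ v x y : V, G.Adj v x → G.Adj v y →
        (SimpleGraph.fromRel (fun a b : V => v ≠ a ∧ v ≠ b ∧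
            ∃ f ∈ F, v ∈ f ∧ a ∈ f ∧ b ∈ f)).Reachable x y) →
      (∀ C : Finset (Sym2 V), (∀ e ∈ C, e ∈ G.edgeSet) →
        (∀ v : V, Even {e : Sym2 V | e ∈ C ∧ v ∈ e}.ncard) →
        ∃ S : Finset (Finset V), (∀ f ∈ S, f ∈ F) ∧
          ∀ e ∈ G.edgeSet, (e ∈ C ↔ Odd {f : Finset V | f ∈ S ∧ ∀ x ∈ e, x ∈ f}.ncard)) →
      ∀ N : Set (Finset V),
        (∀ x : V, ∃ m : ℤ, m ≠ 0 ∧ ((G.neighborSet x).ncard : ℤ) -
          2 * ({f : Finset V | f ∈ F ∧ f ∈ N ∧ x ∈ f}.ncard : ℤ) = 6 * m) →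
        ∀ v : V,
          (∀ n : ℕ,
            Set.ncard {q : (Σ w : ℤ × ℤ,
                (SimpleGraph.fromRel (fun p r : ℤ × ℤ =>
                  (r.1 - p.1, r.2 - p.2) ∈ ({(1, 0), (0, 1), (-1, 1)} : Set (ℤ × ℤ)))).Walk
                  ((0, 0) : ℤ × ℤ) w) | q.2.IsPath ∧ q.2.length = n} ≤
              Set.ncard {q : (Σ w : V, G.Walk v w) | q.2.IsPath ∧ q.2.length = n}) ∧
          Filter.limsup (fun n : ℕ =>
              ((Set.ncard {q : (Σ w : ℤ × ℤ,
                  (SimpleGraph.fromRel (fun p r : ℤ × ℤ =>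
                    (r.1 - p.1, r.2 - p.2) ∈ ({(1, 0), (0, 1), (-1, 1)} : Set (ℤ × ℤ)))).Walk
                    ((0, 0) : ℤ × ℤ) w) | q.2.IsPath ∧ q.2.length = n} : ENNReal)) ^ ((1 : ℝ) / n))
            Filter.atTop
          ≤ Filter.limsup (fun n : ℕ =>
              ((Set.ncard {q : (Σ w : V, G.Walk v w) | q.2.IsPath ∧ q.2.length = n} : ENNReal))
                ^ ((1 : ℝ) / n)) Filter.atTop := by
  intro V G F h1 h2 h3 h4 h5 h6 h7 N hN v
  have key : ∀ n : ℕ,
            Set.ncard {q : (Σ w : ℤ × ℤ,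
                (SimpleGraph.fromRel (fun p r : ℤ × ℤ =>
                  (r.1 - p.1, r.2 - p.2) ∈ ({(1, 0), (0, 1), (-1, 1)} : Set (ℤ × ℤ)))).Walk
                  ((0, 0) : ℤ × ℤ) w) | q.2.IsPath ∧ q.2.length = n} ≤
              Set.ncard {q : (Σ w : V, G.Walk v w) | q.2.IsPath ∧ q.2.length = n} := by
    intro n
    have := Pool.TriFold.helper33.all_FOLD V G F N ⟨h1, h2, h3, h4, h5, h6, h7⟩ hN v n
    simpa only [← ncard_paths] using this
  refine ⟨key, ?_⟩
  apply Filter.limsup_le_limsup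
  · filter_upwards with n
    apply ENNReal.rpow_le_rpow _ (by positivity)
    exact_mod_cast key n
  · isBoundedDefault
  · isBoundedDefault

end Pool.Agent.Results.MP_91103f_co.FoldedDevelopment
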