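import Mathlib
import Pool.Agent.Work.MP_91103f_lv_helper33.ASM

/-!
# Plane triangulations of minimum degree six with few curved vertices
-/

namespace Pool.Agent.Results.MP_91103f_co.SubexponentialCurvature

open Pool.Agent.Work.MP_91103f_co

/-- The hypotheses on `V, G, F` are those of the frozen statement `S10133` (a plane triangulation
`G` with set of faces `F`, all degrees at least six). The set whose cardinality is bounded consists
of the vertices `y` of degree at least seven which lie beyond `x0` as seen from `r` (some shortest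
path from `r` to `y` passes through `x0`), at distance at most `n` from `x0`; for `x0 = r` these are
all the vertices of degree at least seven at distance at most `n` from `r`. The walks start at an
arbitrary vertex `v`. -/
theorem result :
    (∀ ε : ℝ, 0 < ε → ∃ δ : ℝ, 0 < δ ∧
      ∀ (V : Type) (G : SimpleGraph V) (F : Set (Finset V)),
        Infinite V → G.Connected →
        (∀ v : V, (G.neighborSet v).Finite ∧ 6 ≤ (G.neighborSet v).ncard) →
        (∀ f ∈ F, f.card = 3 ∧ ∀ x ∈ f, ∀ y ∈ f, x ≠ y → G.Adj x y) →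
        (∀ x y : V, G.Adj x y → {f : Finset V | f ∈ F ∧ x ∈ f ∧ y ∈ f}.ncard = 2) →
        (∀ v x y : V, G.Adj v x → G.Adj v y →
          (SimpleGraph.fromRel (fun a b : V => v ≠ a ∧ v ≠ b ∧
              ∃ f ∈ F, v ∈ f ∧ a ∈ f ∧ b ∈ f)).Reachable x y) →
        (∀ C : Finset (Sym2 V), (∀ e ∈ C, e ∈ G.edgeSet) →
          (∀ v : V, Even {e : Sym2 V | e ∈ C ∧ v ∈ e}.ncard) →
          ∃ S : Finset (Finset V), (∀ f ∈ S, f ∈ F) ∧
            ∀ e ∈ G.edgeSet, (e ∈ C ↔ Odd {f : Finset V | f ∈ S ∧ ∀ x ∈ e, x ∈ f}.ncard)) →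
        ∀ r x0 v : V,
          ((∃ᶠ n : ℕ in Filter.atTop, (({y : V | 7 ≤ (G.neighborSet y).ncard ∧
            G.dist r y = G.dist r x0 + G.dist x0 y ∧ G.dist x0 y ≤ n}.ncard : ℕ) : ℝ) ≤
              (1 + δ) ^ n) →
          Filter.limsup (fun n : ℕ =>
              ((Set.ncard {q : (Σ w : ℤ × ℤ,
                  (SimpleGraph.fromRel (fun p r : ℤ × ℤ =>
                    (r.1 - p.1, r.2 - p.2) ∈ ({(1, 0), (0, 1), (-1, 1)} : Set (ℤ × ℤ)))).Walk
                    ((0, 0) : ℤ × ℤ) w) | q.2.IsPath ∧ q.2.length = n} : ENNReal)) ^ ((1 : ℝ) / n))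
            Filter.atTop
          ≤ ENNReal.ofReal (1 + ε) * Filter.limsup (fun n : ℕ =>
              ((Set.ncard {q : (Σ w : V, G.Walk v w) | q.2.IsPath ∧ q.2.length = n} : ENNReal))
                ^ ((1 : ℝ) / n)) Filter.atTop) ∧
          ((∀ᶠ n : ℕ in Filter.atTop, (({y : V | 7 ≤ (G.neighborSet y).ncard ∧
            G.dist r y = G.dist r x0 + G.dist x0 y ∧ G.dist x0 y ≤ n}.ncard : ℕ) : ℝ) ≤
              (1 + δ) ^ n) →
          Filter.limsup (fun n : ℕ =>
              ((Set.ncard {q : (Σ w : ℤ × ℤ,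
                  (SimpleGraph.fromRel (fun p r : ℤ × ℤ =>
                    (r.1 - p.1, r.2 - p.2) ∈ ({(1, 0), (0, 1), (-1, 1)} : Set (ℤ × ℤ)))).Walk
                    ((0, 0) : ℤ × ℤ) w) | q.2.IsPath ∧ q.2.length = n} : ENNReal)) ^ ((1 : ℝ) / n))
            Filter.atTop
          ≤ ENNReal.ofReal (1 + ε) * Filter.liminf (fun n : ℕ =>
              ((Set.ncard {q : (Σ w : V, G.Walk v w) | q.2.IsPath ∧ q.2.length = n} : ENNReal))
                ^ ((1 : ℝ) / n)) Filter.atTop)) ∧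
    (∀ (V : Type) (G : SimpleGraph V) (F : Set (Finset V)),
        Infinite V → G.Connected →
        (∀ v : V, (G.neighborSet v).Finite ∧ 6 ≤ (G.neighborSet v).ncard) →
        (∀ f ∈ F, f.card = 3 ∧ ∀ x ∈ f, ∀ y ∈ f, x ≠ y → G.Adj x y) →
        (∀ x y : V, G.Adj x y → {f : Finset V | f ∈ F ∧ x ∈ f ∧ y ∈ f}.ncard = 2) →
        (∀ v x y : V, G.Adj v x → G.Adj v y →
          (SimpleGraph.fromRel (fun a b : V => v ≠ a ∧ v ≠ b ∧
              ∃ f ∈ F, v ∈ f ∧ a ∈ f ∧ b ∈ f)).Reachable x y) →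
        (∀ C : Finset (Sym2 V), (∀ e ∈ C, e ∈ G.edgeSet) →
          (∀ v : V, Even {e : Sym2 V | e ∈ C ∧ v ∈ e}.ncard) →
          ∃ S : Finset (Finset V), (∀ f ∈ S, f ∈ F) ∧
            ∀ e ∈ G.edgeSet, (e ∈ C ↔ Odd {f : Finset V | f ∈ S ∧ ∀ x ∈ e, x ∈ f}.ncard)) →
        ∀ r x0 v : V,
          ((∀ δ : ℝ, 0 < δ → ∃ᶠ n : ℕ in Filter.atTop, (({y : V | 7 ≤ (G.neighborSet y).ncard ∧
            G.dist r y = G.dist r x0 + G.dist x0 y ∧ G.dist x0 y ≤ n}.ncard : ℕ) : ℝ) ≤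
              (1 + δ) ^ n) →
          Filter.limsup (fun n : ℕ =>
              ((Set.ncard {q : (Σ w : ℤ × ℤ,
                  (SimpleGraph.fromRel (fun p r : ℤ × ℤ =>
                    (r.1 - p.1, r.2 - p.2) ∈ ({(1, 0), (0, 1), (-1, 1)} : Set (ℤ × ℤ)))).Walk
                    ((0, 0) : ℤ × ℤ) w) | q.2.IsPath ∧ q.2.length = n} : ENNReal)) ^ ((1 : ℝ) / n))
            Filter.atTop
          ≤ Filter.limsup (fun n : ℕ =>
              ((Set.ncard {q : (Σ w : V, G.Walk v w) | q.2.IsPath ∧ q.2.length = n} : ENNReal))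
                ^ ((1 : ℝ) / n)) Filter.atTop) ∧
          ((∀ δ : ℝ, 0 < δ → ∀ᶠ n : ℕ in Filter.atTop, (({y : V | 7 ≤ (G.neighborSet y).ncard ∧
            G.dist r y = G.dist r x0 + G.dist x0 y ∧ G.dist x0 y ≤ n}.ncard : ℕ) : ℝ) ≤
              (1 + δ) ^ n) →
          Filter.limsup (fun n : ℕ =>
              ((Set.ncard {q : (Σ w : ℤ × ℤ,
                  (SimpleGraph.fromRel (fun p r : ℤ × ℤ =>
                    (r.1 - p.1, r.2 - p.2) ∈ ({(1, 0), (0, 1), (-1, 1)} : Set (ℤ × ℤ)))).Walk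
                    ((0, 0) : ℤ × ℤ) w) | q.2.IsPath ∧ q.2.length = n} : ENNReal)) ^ ((1 : ℝ) / n))
            Filter.atTop
          ≤ Filter.liminf (fun n : ℕ =>
              ((Set.ncard {q : (Σ w : V, G.Walk v w) | q.2.IsPath ∧ q.2.length = n} : ENNReal))
                ^ ((1 : ℝ) / n)) Filter.atTop)) := by
  constructor
  · intro ε hε
    obtain ⟨δ, hδ, h⟩ := Pool.TriLev.helper33.main ε hε
    refine ⟨δ, hδ, ?_⟩
    intro V G F h1 h2 h3 h4 h5 h6 h7 r x0 v
    have := h V G F ⟨h1, h2, h3, h4, h5, h6, h7⟩ r x0 v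
    simpa only [Pool.TriLev.c6, ← ncard_paths] using this
  · intro V G F h1 h2 h3 h4 h5 h6 h7 r x0 v
    refine ⟨fun hfr => ?_, fun hfr => ?_⟩
    · apply Pool.TriLev.helper33.le_of_all
      intro ε hε
      obtain ⟨δ, hδ, h⟩ := Pool.TriLev.helper33.main ε hε
      have := (h V G F ⟨h1, h2, h3, h4, h5, h6, h7⟩ r x0 v).1 (hfr δ hδ)
      simpa only [Pool.TriLev.c6, ← ncard_paths] using this
    · apply Pool.TriLev.helper33.le_of_all
      intro ε hε
      obtain ⟨δ, hδ, h⟩ := Pool.TriLev.helper33.main ε hε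
      have := (h V G F ⟨h1, h2, h3, h4, h5, h6, h7⟩ r x0 v).2 (hfr δ hδ)
      simpa only [Pool.TriLev.c6, ← ncard_paths] using this

end Pool.Agent.Results.MP_91103f_co.SubexponentialCurvature
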