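import Mathlib
import Pool.Agent.Work.MP_91103f_co.Count5
import Pool.Agent.Work.MP_91103f_co.Growth

/-!
# A universal lower bound for the connective constant of triangulations of minimum degree six
-/

namespace Pool.Agent.Results.MP_91103f_co.UniversalBound

open Pool.Agent.Work.MP_91103f_co

/-- The hypotheses are those of the frozen statement `S10133`: a plane triangulation `G` with
set of faces `F`, all degrees at least six. -/
theorem result :
  ∀ (V : Type) (G : SimpleGraph V) (F : Set (Finset V)),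
    Infinite V → G.Connected →
    (∀ v : V, (G.neighborSet v).Finite ∧ 6 ≤ (G.neighborSet v).ncard) →
    (∀ f ∈ F, f.card = 3 ∧ ∀ x ∈ f, ∀ y ∈ f, x ≠ y → G.Adj x y) →
    (∀ x y : V, G.Adj x y → {f : Finset V | f ∈ F ∧ x ∈ f ∧ y ∈ f}.ncard = 2) →
    (∀ v x y : V, G.Adj v x → G.Adj v y →
      (SimpleGraph.fromRel (fun a b : V => v ≠ a ∧ v ≠ b ∧
          ∃ f ∈ F, v ∈ f ∧ a ∈ f ∧ b ∈ f)).Reachable x y) →
    (∀ C : Finset (Sym2 V), (∀ e ∈ C, e ∈ G.edgeSet) →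
      (∀ v : V, Even {e : Sym2 V | e ∈ C ∧ v ∈ e}.ncard) →
      ∃ S : Finset (Finset V), (∀ f ∈ S, f ∈ F) ∧
        ∀ e ∈ G.edgeSet, (e ∈ C ↔ Odd {f : Finset V | f ∈ S ∧ ∀ x ∈ e, x ∈ f}.ncard)) →
    ∀ v : V,
      ENNReal.ofReal 3.77 ≤ Filter.liminf (fun n : ℕ =>
          ((Set.ncard {q : (Σ w : V, G.Walk v w) | q.2.IsPath ∧ q.2.length = n} : ENNReal))
            ^ ((1 : ℝ) / n)) Filter.atTop := by
  intro V G F h1 h2 h3 h4 h5 h6 h7 v
  have hT : Tri V G F := ⟨h1, h2, h3, h4, h5, h6, h7⟩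
  apply le_liminf_root (C := (1 / 300000 : ℝ)) (by norm_num) (by norm_num)
  filter_upwards [Filter.eventually_ge_atTop 1] with n hn
  rw [ncard_paths]
  have h := U.lower hT v (n - 1)
  rw [show n - 1 + 1 = n by omega] at h
  have h' : (377 : ℝ) ^ (n - 1) ≤ 65535 * 100 ^ (n - 1) * ((PL G v n).ncard : ℝ) := by
    exact_mod_cast h
  have e1 : (3.77 : ℝ) ^ (n - 1) * 100 ^ (n - 1) = 377 ^ (n - 1) := by
    rw [← mul_pow]
    norm_num
  have e2 : (0 : ℝ) < 100 ^ (n - 1) := by positivity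
  have e3 : (3.77 : ℝ) ^ n = 3.77 * 3.77 ^ (n - 1) := by
    rw [← pow_succ', show n - 1 + 1 = n by omega]
  have h8 : (3.77 : ℝ) ^ (n - 1) ≤ 65535 * ((PL G v n).ncard : ℝ) := by
    rw [← mul_le_mul_iff_of_pos_left e2]
    calc (100 : ℝ) ^ (n - 1) * (3.77 : ℝ) ^ (n - 1) = 377 ^ (n - 1) := by rw [← e1]; ring
      _ ≤ 65535 * 100 ^ (n - 1) * ((PL G v n).ncard : ℝ) := h'
      _ = 100 ^ (n - 1) * (65535 * ((PL G v n).ncard : ℝ)) := by ring
  rw [e3]
  nlinarith [h8, Nat.cast_nonneg (α := ℝ) (PL G v n).ncard]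

end Pool.Agent.Results.MP_91103f_co.UniversalBound
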